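import Pool.Agent.Lib.H93T.Cert

/-!
# H93T.C20: the circulant graph on 20 vertices with connection set ±2, ±5, ±6

It is triangle-free, and for every independent set of 2 vertices the vertices outside its closed
neighbourhood are covered twice by 9 vertices and edges.
-/

set_option autoImplicit false
set_option synthInstance.maxHeartbeats 400000
set_option synthInstance.maxSize 1000

namespace Pool.Agent.Lib.H93T

open Finset SimpleGraph Pool.Agent.Lib.Helper15.Chrom

/-- adjacency of `c20`. -/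
def c20b (x y : Fin 20) : Bool :=
  [2, 5, 6, 14, 15, 18].contains (x - y).val

/-- the circulant graph on `20` vertices with connection set `±2, ±5, ±6`. -/
def c20 : SimpleGraph (Fin 20) where
  Adj x y := c20b x y = true
  symm := ⟨by decide +kernel⟩
  loopless := ⟨by decide +kernel⟩

instance : DecidableRel c20.Adj := fun x y => inferInstanceAs (Decidable (c20b x y = true))

theorem c20_shift (t x y : Fin 20) (h : c20.Adj x y) : c20.Adj (x + t) (y + t) := by
  have h1 : (x + t) - (y + t) = x - y := add_sub_add_right_eq_sub x y t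
  show c20b (x + t) (y + t) = true
  unfold c20b
  rw [h1]
  exact h

theorem c20_tri (x y z : Fin 20) : ¬ (c20.Adj x y ∧ c20.Adj y z ∧ c20.Adj x z) := by
  have h : ∀ x y z : Fin 20, ¬ (c20.Adj x y ∧ c20.Adj y z ∧ c20.Adj x z) := by decide +kernel
  exact h x y z

/-- the double covers for the pairs `{0, v}`. -/
def c20tab : List (List (Fin 20 × Fin 20)) :=
  [[],
    [(4, 9), (8, 13), (9, 4), (10, 12), (11, 17), (12, 10), (13, 8), (17, 11)],
    [],
    [(4, 19), (7, 13), (10, 12), (11, 16), (12, 7), (13, 11), (16, 10), (19, 4)],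
    [(1, 7), (3, 1), (7, 12), (8, 13), (11, 16), (12, 17), (13, 8), (16, 11), (17, 3)],
    [],
    [],
    [(3, 17), (4, 19), (8, 10), (10, 8), (11, 16), (16, 11), (17, 3), (19, 4)],
    [(1, 7), (4, 19), (7, 9), (9, 4), (11, 16), (12, 17), (16, 11), (17, 12), (19, 1)],
    [(1, 16), (8, 13), (10, 8), (12, 17), (13, 19), (16, 10), (17, 12), (19, 1)],
    [(1, 7), (3, 9), (7, 13), (9, 11), (11, 17), (13, 19), (17, 3), (19, 1)],
    [(1, 3), (3, 8), (4, 19), (7, 12), (8, 10), (10, 4), (12, 7), (19, 1)],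
    [(1, 16), (3, 9), (4, 19), (8, 3), (9, 4), (11, 13), (13, 8), (16, 11), (19, 1)],
    [(1, 16), (3, 9), (4, 10), (9, 4), (10, 12), (12, 17), (16, 1), (17, 3)],
    [],
    [],
    [(3, 8), (4, 19), (7, 9), (8, 13), (9, 3), (12, 17), (13, 7), (17, 12), (19, 4)],
    [(1, 16), (4, 10), (7, 9), (8, 13), (9, 4), (10, 8), (13, 7), (16, 1)],
    [],
    [(3, 8), (7, 12), (8, 3), (9, 11), (10, 16), (11, 9), (12, 7), (16, 10)]]

theorem c20_zero : ∀ v : Fin 20, v ≠ 0 → ¬ c20.Adj 0 v →
    ((c20tab.getD v.val []).length ≤ 9 ∧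
    (∀ p ∈ c20tab.getD v.val [], p.1 = p.2 ∨ c20.Adj p.1 p.2) ∧
    ∀ z : Fin 20, (0 = z ∨ c20.Adj 0 z ∨ v = z ∨ c20.Adj v z) ∨
      2 ≤ (c20tab.getD v.val []).countP (fun p => decide (p.1 = z ∨ p.2 = z))) := by
  decide +kernel

theorem c20_cov (u v : Fin 20) (huv : u ≠ v) (h : ¬ c20.Adj u v) : Cov c20 {u, v} 9 := by
  have h1 : v - u ≠ 0 := fun h' => huv (sub_eq_zero.1 h').symm
  have h2 : ¬ c20.Adj 0 (v - u) := by
    intro h3
    have h4 := c20_shift u _ _ h3
    rw [zero_add, sub_add_cancel] at h4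
    exact h h4
  obtain ⟨h5, h6, h7⟩ := c20_zero (v - u) h1 h2
  have h8 : Cov c20 {0, v - u} 9 := by
    refine Cov.of_list _ h5 h6 fun z => ?_
    rcases h7 z with (h9 | h9 | h9 | h9) | h9
    · exact Or.inl ⟨0, by simp, Or.inl h9⟩
    · exact Or.inl ⟨0, by simp, Or.inr h9⟩
    · exact Or.inl ⟨v - u, by simp, Or.inl h9⟩
    · exact Or.inl ⟨v - u, by simp, Or.inr h9⟩
    · exact Or.inr h9
  refine h8.map (Equiv.addRight u) (fun x y hxy => c20_shift u x y hxy) ?_
  intro i hi
  rw [Finset.mem_insert, Finset.mem_singleton] at hi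
  rcases hi with rfl | rfl
  · simp
  · simp

end Pool.Agent.Lib.H93T
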