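import Pool.Agent.Lib.H93T.Cert

/-!
# H93T.C21: the circulant graph on 21 vertices with connection set ±2, ±5, ±6

It is triangle-free, and for every independent set of 3 vertices the vertices outside its closed
neighbourhood are covered twice by 7 vertices and edges.
-/

set_option autoImplicit false
set_option synthInstance.maxHeartbeats 400000
set_option synthInstance.maxSize 1000

namespace Pool.Agent.Lib.H93T

open Finset SimpleGraph Pool.Agent.Lib.Helper15.Chrom

/-- adjacency of `c21`. -/
def c21b (x y : Fin 21) : Bool :=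
  [2, 5, 6, 15, 16, 19].contains (x - y).val

/-- the circulant graph on `21` vertices with connection set `±2, ±5, ±6`. -/
def c21 : SimpleGraph (Fin 21) where
  Adj x y := c21b x y = true
  symm := ⟨by decide +kernel⟩
  loopless := ⟨by decide +kernel⟩

instance : DecidableRel c21.Adj := fun x y => inferInstanceAs (Decidable (c21b x y = true))

theorem c21_shift (t x y : Fin 21) (h : c21.Adj x y) : c21.Adj (x + t) (y + t) := by
  have h1 : (x + t) - (y + t) = x - y := add_sub_add_right_eq_sub x y t
  show c21b (x + t) (y + t) = true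
  unfold c21b
  rw [h1]
  exact h

theorem c21_tri (x y z : Fin 21) : ¬ (c21.Adj x y ∧ c21.Adj y z ∧ c21.Adj x z) := by
  have h : ∀ x y z : Fin 21, ¬ (c21.Adj x y ∧ c21.Adj y z ∧ c21.Adj x z) := by decide +kernel
  exact h x y z

/-- the double covers for the triples `{0, u, v}`, `u < v`. -/
def c21tab : List (List (List (Fin 21 × Fin 21))) :=
  [[],
    [[],
     [],
     [],
     [],
     [(8, 14), (11, 13), (12, 18), (13, 11), (14, 8), (18, 12)],
     [],
     [],
     [],
     [(4, 9), (9, 4), (12, 18), (18, 12), (11, 11), (11, 11)],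
     [(8, 13), (10, 8), (12, 10), (13, 18), (18, 12)],
     [(9, 14), (11, 13), (13, 11), (14, 9), (18, 18), (18, 18)],
     [(4, 10), (8, 14), (10, 4), (12, 18), (14, 8), (18, 12)],
     [(4, 9), (8, 13), (9, 4), (13, 8), (11, 11), (11, 11)],
     [(4, 10), (9, 4), (10, 12), (12, 14), (14, 9)],
     [(4, 10), (10, 4), (11, 13), (13, 11), (18, 18), (18, 18)],
     [],
     [],
     [],
     [(4, 10), (8, 14), (9, 11), (10, 4), (11, 9), (14, 8)]],
    [],
    [[],
     [],
     [],
     [],
     [(7, 13), (11, 17), (12, 14), (13, 7), (14, 12), (17, 11)],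
     [],
     [],
     [(4, 10), (10, 4), (11, 17), (14, 20), (17, 11), (20, 14)],
     [],
     [],
     [(7, 13), (11, 17), (13, 7), (14, 20), (17, 11), (20, 14)],
     [(4, 10), (7, 12), (10, 4), (12, 7), (14, 20), (20, 14)],
     [(4, 20), (11, 13), (13, 11), (20, 4)],
     [(4, 10), (10, 4), (12, 17), (14, 20), (17, 12), (20, 14)],
     [(4, 10), (7, 13), (10, 4), (11, 17), (13, 7), (17, 11)],
     [],
     [],
     [(4, 10), (7, 13), (10, 4), (13, 7), (14, 20), (20, 14)],
     [],
     [],
     [(7, 13), (10, 12), (11, 17), (12, 10), (13, 7), (17, 11)]],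
    [[],
     [],
     [],
     [],
     [],
     [],
     [],
     [(3, 18), (8, 14), (11, 17), (14, 8), (17, 11), (18, 3)],
     [(1, 7), (7, 1), (11, 17), (12, 18), (17, 11), (18, 12)],
     [],
     [],
     [(1, 7), (3, 1), (7, 12), (8, 14), (12, 18), (14, 8), (18, 3)],
     [(1, 3), (3, 1), (8, 13), (13, 8), (11, 11), (11, 11)],
     [(1, 3), (3, 1), (12, 14), (14, 12), (17, 17), (17, 17)],
     [(1, 7), (3, 18), (7, 13), (11, 17), (13, 11), (17, 1), (18, 3)],
     [],
     [],
     [(3, 18), (7, 13), (8, 14), (13, 7), (14, 8), (18, 3)],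
     [(1, 7), (7, 1), (8, 14), (11, 17), (14, 8), (17, 11)]],
    [],
    [],
    [[],
     [],
     [],
     [],
     [],
     [],
     [],
     [],
     [(4, 20), (11, 17), (17, 11), (20, 4), (18, 18), (18, 18)],
     [],
     [(3, 18), (11, 17), (14, 20), (17, 11), (18, 3), (20, 14)],
     [(3, 18), (4, 10), (8, 14), (10, 8), (14, 20), (18, 3), (20, 4)],
     [],
     [],
     [(3, 18), (4, 10), (10, 4), (11, 17), (17, 11), (18, 3)],
     [],
     [],
     [(3, 18), (4, 10), (8, 14), (10, 8), (14, 20), (18, 3), (20, 4)],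
     [(4, 10), (8, 14), (10, 4), (11, 17), (14, 8), (17, 11)],
     [],
     [(3, 8), (8, 3), (11, 17), (17, 11), (10, 10), (10, 10)]],
    [[],
     [],
     [],
     [],
     [],
     [],
     [],
     [],
     [],
     [(1, 17), (12, 18), (17, 12), (18, 20), (20, 1)],
     [],
     [(1, 7), (4, 20), (7, 1), (12, 18), (18, 12), (20, 4)],
     [(1, 20), (4, 9), (9, 4), (20, 1), (11, 11), (11, 11)],
     [],
     [],
     [],
     [],
     [(4, 20), (7, 9), (9, 7), (20, 4), (18, 18), (18, 18)],
     [(1, 7), (4, 9), (7, 1), (9, 4), (11, 17), (17, 11)],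
     [],
     [(7, 12), (9, 7), (11, 9), (12, 17), (17, 11)]],
    [[],
     [],
     [],
     [],
     [],
     [],
     [],
     [],
     [],
     [],
     [(1, 17), (13, 18), (17, 1), (18, 13), (20, 20), (20, 20)],
     [],
     [(1, 20), (8, 13), (13, 8), (20, 1)],
     [(1, 17), (10, 12), (12, 10), (17, 1), (20, 20), (20, 20)],
     [],
     [],
     [],
     [(8, 10), (10, 8), (13, 18), (18, 13), (20, 20), (20, 20)],
     [(1, 17), (8, 10), (10, 8), (17, 1)],
     [],
     [(8, 13), (10, 12), (12, 10), (13, 8), (17, 17), (17, 17)]],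
    [[],
     [],
     [],
     [],
     [],
     [],
     [],
     [],
     [],
     [],
     [],
     [(1, 7), (3, 18), (7, 1), (14, 20), (18, 3), (20, 14)],
     [],
     [(1, 17), (3, 9), (9, 3), (14, 20), (17, 1), (20, 14)],
     [(1, 7), (3, 18), (7, 13), (11, 17), (13, 11), (17, 1), (18, 3)],
     [],
     [],
     [(3, 9), (7, 13), (9, 7), (13, 18), (14, 20), (18, 3), (20, 14)],
     [(1, 7), (7, 1), (9, 14), (11, 17), (14, 9), (17, 11)],
     [],
     [(3, 9), (7, 13), (9, 3), (11, 17), (13, 7), (17, 11)]],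
    [[],
     [],
     [],
     [],
     [],
     [],
     [],
     [],
     [],
     [],
     [],
     [],
     [(1, 3), (3, 8), (4, 20), (20, 1), (8, 8), (4, 4)],
     [],
     [(1, 7), (3, 18), (4, 10), (7, 1), (10, 4), (18, 3)],
     [],
     [],
     [],
     [(1, 7), (4, 10), (7, 1), (8, 14), (10, 4), (14, 8)],
     [],
     [(3, 8), (7, 12), (8, 3), (12, 7), (10, 10), (10, 10)]],
    [[],
     [],
     [],
     [],
     [],
     [],
     [],
     [],
     [],
     [],
     [],
     [],
     [],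
     [(1, 3), (3, 9), (4, 20), (9, 4), (20, 1)],
     [],
     [],
     [],
     [],
     [],
     [],
     [(3, 9), (8, 3), (9, 11), (11, 13), (13, 8)]],
    [[],
     [],
     [],
     [],
     [],
     [],
     [],
     [],
     [],
     [],
     [],
     [],
     [],
     [],
     [(1, 3), (3, 1), (4, 10), (10, 4), (17, 17), (17, 17)],
     [],
     [],
     [(3, 9), (4, 10), (9, 3), (10, 4), (14, 20), (20, 14)],
     [],
     [],
     [(3, 9), (9, 3), (10, 12), (12, 10), (17, 17), (17, 17)]],
    [[],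
     [],
     [],
     [],
     [],
     [],
     [],
     [],
     [],
     [],
     [],
     [],
     [],
     [],
     [],
     [],
     [],
     [(3, 18), (4, 10), (7, 13), (10, 4), (13, 7), (18, 3)],
     [(1, 7), (4, 10), (7, 1), (10, 4), (11, 17), (17, 11)]],
    [],
    [],
    [[],
     [],
     [],
     [],
     [],
     [],
     [],
     [],
     [],
     [],
     [],
     [],
     [],
     [],
     [],
     [],
     [],
     [],
     [(4, 10), (7, 9), (8, 14), (9, 7), (10, 4), (14, 8)],
     [],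
     [(3, 9), (7, 13), (8, 10), (9, 3), (10, 8), (13, 7)]],
    [],
    [],
    []]

theorem c21_zero : ∀ u v : Fin 21, u ≠ 0 → ¬ c21.Adj 0 u → ¬ c21.Adj 0 v → u < v →
    ¬ c21.Adj u v →
    (((c21tab.getD u.val []).getD v.val []).length ≤ 7 ∧
    (∀ p ∈ (c21tab.getD u.val []).getD v.val [], p.1 = p.2 ∨ c21.Adj p.1 p.2) ∧
    ∀ z : Fin 21, (0 = z ∨ c21.Adj 0 z ∨ u = z ∨ c21.Adj u z ∨ v = z ∨ c21.Adj v z) ∨
      2 ≤ ((c21tab.getD u.val []).getD v.val []).countP
        (fun p => decide (p.1 = z ∨ p.2 = z))) := by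
  decide +kernel

theorem c21_cov (t u v : Fin 21) (htu : t ≠ u) (htv : t ≠ v) (huv : u ≠ v)
    (h0 : ¬ c21.Adj t u) (h1 : ¬ c21.Adj t v) (h2 : ¬ c21.Adj u v) : Cov c21 {t, u, v} 7 := by
  have hs : ∀ x : Fin 21, ¬ c21.Adj t x → ¬ c21.Adj 0 (x - t) := by
    intro x hx h3
    have h4 := c21_shift t _ _ h3
    rw [zero_add, sub_add_cancel] at h4
    exact hx h4
  have hs2 : ∀ x y : Fin 21, ¬ c21.Adj x y → ¬ c21.Adj (x - t) (y - t) := by
    intro x y hx h3
    have h4 := c21_shift t _ _ h3
    rw [sub_add_cancel, sub_add_cancel] at h4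
    exact hx h4
  have key : ∀ u v : Fin 21, t ≠ u → ¬ c21.Adj t u → ¬ c21.Adj t v → u - t < v - t →
      ¬ c21.Adj u v → Cov c21 {t, u, v} 7 := by
    intro u v htu h0 h1 hlt h2
    obtain ⟨h5, h6, h7⟩ := c21_zero (u - t) (v - t) (fun h' => htu (sub_eq_zero.1 h').symm)
      (hs u h0) (hs v h1) hlt (hs2 u v h2)
    have h8 : Cov c21 {0, u - t, v - t} 7 := by
      refine Cov.of_list _ h5 h6 fun z => ?_
      rcases h7 z with (h9 | h9 | h9 | h9 | h9 | h9) | h9
      · exact Or.inl ⟨0, by simp, Or.inl h9⟩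
      · exact Or.inl ⟨0, by simp, Or.inr h9⟩
      · exact Or.inl ⟨u - t, by simp, Or.inl h9⟩
      · exact Or.inl ⟨u - t, by simp, Or.inr h9⟩
      · exact Or.inl ⟨v - t, by simp, Or.inl h9⟩
      · exact Or.inl ⟨v - t, by simp, Or.inr h9⟩
      · exact Or.inr h9
    refine h8.map (Equiv.addRight t) (fun x y hxy => c21_shift t x y hxy) ?_
    intro i hi
    rw [Finset.mem_insert, Finset.mem_insert, Finset.mem_singleton] at hi
    rcases hi with rfl | rfl | rfl
    · simp
    · simp
    · simp
  rcases lt_trichotomy (u - t) (v - t) with hlt | heq | hlt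
  · exact key u v htu h0 h1 hlt h2
  · exact absurd (sub_left_injective heq) huv
  · have h3 := key v u htv h1 h0 hlt (fun h' => h2 h'.symm)
    rwa [Finset.pair_comm v u] at h3

end Pool.Agent.Lib.H93T
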