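import Pool.Agent.Lib.H93T.Cert

/-!
# H93T.C22: the circulant graph on 22 vertices with connection set ±3, ±4, ±5, ±11

It is triangle-free, and for every independent set of 2 vertices the vertices outside its closed
neighbourhood are covered twice by 11 vertices and edges.
-/

set_option autoImplicit false
set_option synthInstance.maxHeartbeats 400000
set_option synthInstance.maxSize 1000

namespace Pool.Agent.Lib.H93T

open Finset SimpleGraph Pool.Agent.Lib.Helper15.Chrom

/-- adjacency of `c22`. -/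
def c22b (x y : Fin 22) : Bool :=
  [3, 4, 5, 11, 17, 18, 19].contains (x - y).val

/-- the circulant graph on `22` vertices with connection set `±3, ±4, ±5, ±11`. -/
def c22 : SimpleGraph (Fin 22) where
  Adj x y := c22b x y = true
  symm := ⟨by decide +kernel⟩
  loopless := ⟨by decide +kernel⟩

instance : DecidableRel c22.Adj := fun x y => inferInstanceAs (Decidable (c22b x y = true))

theorem c22_shift (t x y : Fin 22) (h : c22.Adj x y) : c22.Adj (x + t) (y + t) := by
  have h1 : (x + t) - (y + t) = x - y := add_sub_add_right_eq_sub x y t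
  show c22b (x + t) (y + t) = true
  unfold c22b
  rw [h1]
  exact h

theorem c22_tri (x y z : Fin 22) : ¬ (c22.Adj x y ∧ c22.Adj y z ∧ c22.Adj x z) := by
  have h : ∀ x y z : Fin 22, ¬ (c22.Adj x y ∧ c22.Adj y z ∧ c22.Adj x z) := by decide +kernel
  exact h x y z

/-- the double covers for the pairs `{0, v}`. -/
def c22tab : List (List (Fin 22 × Fin 22)) :=
  [[],
    [(2, 7), (7, 2), (8, 13), (9, 14), (10, 15), (13, 8), (14, 9), (15, 10), (16, 21), (21,
    16)],
    [(1, 12), (9, 14), (10, 15), (12, 1), (14, 9), (15, 10), (8, 8), (16, 16), (8, 8), (16,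
    16)],
    [],
    [],
    [],
    [(7, 12), (8, 13), (12, 7), (13, 8), (15, 20), (16, 21), (20, 15), (21, 16), (14, 14), (14,
    14)],
    [(1, 6), (6, 1), (8, 13), (9, 14), (13, 8), (14, 9), (15, 20), (16, 21), (20, 15), (21,
    16)],
    [(1, 6), (2, 7), (6, 1), (7, 10), (9, 14), (10, 15), (14, 9), (15, 20), (16, 21), (20, 16),
    (21, 2)],
    [(2, 7), (7, 2), (10, 15), (15, 10), (16, 21), (21, 16), (1, 1), (8, 8), (1, 1), (8, 8)],
    [(1, 12), (2, 20), (12, 8), (20, 1), (8, 8), (9, 9), (16, 16), (2, 2), (9, 9), (16, 16)],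
    [],
    [(2, 13), (6, 10), (10, 6), (13, 2), (14, 14), (20, 20), (21, 21), (14, 14), (20, 20), (21,
    21)],
    [(1, 6), (6, 1), (7, 12), (12, 7), (15, 20), (20, 15), (14, 14), (21, 21), (14, 14), (21,
    21)],
    [(1, 6), (2, 7), (6, 1), (7, 12), (8, 13), (12, 8), (13, 16), (15, 20), (16, 21), (20, 15),
    (21, 2)],
    [(1, 6), (2, 7), (6, 1), (7, 2), (8, 13), (9, 14), (13, 8), (14, 9), (16, 21), (21, 16)],
    [(1, 6), (2, 7), (6, 1), (7, 2), (9, 14), (10, 15), (14, 9), (15, 10), (8, 8), (8, 8)],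
    [],
    [],
    [],
    [(6, 10), (7, 12), (8, 13), (10, 6), (12, 7), (13, 8), (14, 14), (21, 21), (14, 14), (21,
    21)],
    [(1, 6), (6, 1), (7, 12), (8, 13), (9, 14), (12, 7), (13, 8), (14, 9), (15, 20), (20, 15)]]

theorem c22_zero : ∀ v : Fin 22, v ≠ 0 → ¬ c22.Adj 0 v →
    ((c22tab.getD v.val []).length ≤ 11 ∧
    (∀ p ∈ c22tab.getD v.val [], p.1 = p.2 ∨ c22.Adj p.1 p.2) ∧
    ∀ z : Fin 22, (0 = z ∨ c22.Adj 0 z ∨ v = z ∨ c22.Adj v z) ∨
      2 ≤ (c22tab.getD v.val []).countP (fun p => decide (p.1 = z ∨ p.2 = z))) := by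
  decide +kernel

theorem c22_cov (u v : Fin 22) (huv : u ≠ v) (h : ¬ c22.Adj u v) : Cov c22 {u, v} 11 := by
  have h1 : v - u ≠ 0 := fun h' => huv (sub_eq_zero.1 h').symm
  have h2 : ¬ c22.Adj 0 (v - u) := by
    intro h3
    have h4 := c22_shift u _ _ h3
    rw [zero_add, sub_add_cancel] at h4
    exact h h4
  obtain ⟨h5, h6, h7⟩ := c22_zero (v - u) h1 h2
  have h8 : Cov c22 {0, v - u} 11 := by
    refine Cov.of_list _ h5 h6 fun z => ?_
    rcases h7 z with (h9 | h9 | h9 | h9) | h9
    · exact Or.inl ⟨0, by simp, Or.inl h9⟩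
    · exact Or.inl ⟨0, by simp, Or.inr h9⟩
    · exact Or.inl ⟨v - u, by simp, Or.inl h9⟩
    · exact Or.inl ⟨v - u, by simp, Or.inr h9⟩
    · exact Or.inr h9
  refine h8.map (Equiv.addRight u) (fun x y hxy => c22_shift u x y hxy) ?_
  intro i hi
  rw [Finset.mem_insert, Finset.mem_singleton] at hi
  rcases hi with rfl | rfl
  · simp
  · simp

end Pool.Agent.Lib.H93T
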