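import Pool.Agent.Lib.H93T.Cert

/-!
# H93T.C24: the circulant graph on 24 vertices with connection set ±1, ±3, ±7, ±12

It is triangle-free, and for every independent set of 3 vertices the vertices outside its closed
neighbourhood are covered twice by 8 vertices and edges.
-/

set_option autoImplicit false
set_option synthInstance.maxHeartbeats 400000
set_option synthInstance.maxSize 1000

namespace Pool.Agent.Lib.H93T

open Finset SimpleGraph Pool.Agent.Lib.Helper15.Chrom

/-- adjacency of `c24`. -/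
def c24b (x y : Fin 24) : Bool :=
  [1, 3, 7, 12, 17, 21, 23].contains (x - y).val

/-- the circulant graph on `24` vertices with connection set `±1, ±3, ±7, ±12`. -/
def c24 : SimpleGraph (Fin 24) where
  Adj x y := c24b x y = true
  symm := ⟨by decide +kernel⟩
  loopless := ⟨by decide +kernel⟩

instance : DecidableRel c24.Adj := fun x y => inferInstanceAs (Decidable (c24b x y = true))

theorem c24_shift (t x y : Fin 24) (h : c24.Adj x y) : c24.Adj (x + t) (y + t) := by
  have h1 : (x + t) - (y + t) = x - y := add_sub_add_right_eq_sub x y t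
  show c24b (x + t) (y + t) = true
  unfold c24b
  rw [h1]
  exact h

theorem c24_tri (x y z : Fin 24) : ¬ (c24.Adj x y ∧ c24.Adj y z ∧ c24.Adj x z) := by
  have h : ∀ x y z : Fin 24, ¬ (c24.Adj x y ∧ c24.Adj y z ∧ c24.Adj x z) := by decide +kernel
  exact h x y z

/-- the double covers for the triples `{0, u, v}`, `u < v`. -/
def c24tab : List (List (List (Fin 24 × Fin 24))) :=
  [[],
    [],
    [[],
     [],
     [],
     [],
     [(6, 13), (8, 20), (10, 22), (13, 6), (15, 18), (18, 15), (20, 8), (22, 10)],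
     [],
     [(4, 11), (8, 20), (10, 22), (11, 4), (15, 16), (16, 15), (20, 8), (22, 10)],
     [],
     [(4, 16), (6, 18), (10, 13), (13, 10), (16, 4), (18, 6), (22, 22), (22, 22)],
     [],
     [(4, 16), (6, 18), (8, 15), (15, 8), (16, 4), (18, 6), (20, 20), (20, 20)],
     [(6, 13), (13, 6), (15, 16), (16, 15), (20, 20), (22, 22), (20, 20), (22, 22)],
     [],
     [(4, 11), (8, 15), (11, 4), (15, 8), (18, 18), (22, 22), (18, 18), (22, 22)],
     [],
     [(4, 11), (6, 13), (11, 4), (13, 6), (10, 10), (20, 20), (10, 10), (20, 20)],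
     [(6, 18), (8, 20), (10, 11), (11, 10), (18, 6), (20, 8), (22, 22), (22, 22)],
     [],
     [(4, 16), (8, 20), (10, 13), (13, 10), (16, 4), (20, 8), (22, 22), (22, 22)],
     [],
     [(4, 11), (6, 18), (10, 22), (11, 4), (15, 16), (16, 15), (18, 6), (22, 10)],
     [],
     [(4, 11), (6, 18), (8, 20), (11, 4), (13, 16), (16, 13), (18, 6), (20, 8)]],
    [],
    [[],
     [],
     [],
     [],
     [],
     [],
     [(2, 19), (8, 20), (10, 22), (14, 15), (15, 14), (19, 2), (20, 8), (22, 10)],
     [],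
     [(2, 14), (6, 18), (10, 22), (13, 6), (14, 13), (18, 19), (19, 2), (22, 10)],
     [(13, 20), (14, 15), (15, 14), (18, 19), (19, 18), (20, 13), (22, 22), (22, 22)],
     [(2, 19), (6, 18), (8, 20), (14, 15), (15, 14), (18, 6), (19, 2), (20, 8)],
     [],
     [],
     [(2, 19), (8, 9), (9, 8), (15, 18), (18, 15), (19, 2), (22, 22), (22, 22)],
     [(6, 9), (8, 20), (9, 6), (10, 22), (18, 19), (19, 18), (20, 8), (22, 10)],
     [(2, 19), (6, 13), (9, 6), (10, 9), (13, 10), (19, 2), (20, 20), (20, 20)],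
     [],
     [],
     [(2, 9), (8, 20), (9, 2), (10, 22), (13, 14), (14, 13), (20, 8), (22, 10)],
     [(6, 13), (8, 15), (9, 6), (10, 9), (13, 10), (15, 8), (14, 14), (14, 14)],
     [(2, 9), (6, 18), (9, 2), (10, 22), (14, 15), (15, 14), (18, 6), (22, 10)],
     [],
     [(2, 9), (6, 18), (8, 20), (9, 2), (13, 14), (14, 13), (18, 6), (20, 8)]],
    [[],
     [],
     [],
     [],
     [],
     [],
     [],
     [],
     [],
     [(11, 18), (13, 20), (14, 11), (15, 14), (18, 15), (20, 13), (19, 19), (19, 19)],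
     [(14, 15), (15, 14), (16, 19), (19, 16), (18, 18), (20, 20), (18, 18), (20, 20)],
     [(9, 16), (13, 20), (16, 9), (20, 13), (15, 15), (19, 19), (15, 15), (19, 19)],
     [],
     [(11, 18), (18, 11), (9, 9), (15, 15), (19, 19), (9, 9), (15, 15), (19, 19)],
     [(9, 10), (10, 9), (16, 19), (19, 16), (18, 18), (20, 20), (18, 18), (20, 20)],
     [(9, 10), (10, 9), (13, 20), (20, 13), (11, 11), (19, 19), (11, 11), (19, 19)],
     [(10, 11), (11, 10), (14, 14), (18, 18), (20, 20), (14, 14), (18, 18), (20, 20)],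
     [],
     [(9, 16), (10, 9), (13, 10), (14, 13), (16, 16), (20, 20), (14, 14), (20, 20)],
     [(9, 10), (10, 9), (11, 14), (14, 11), (13, 13), (15, 15), (13, 13), (15, 15)],
     [(9, 16), (10, 11), (11, 10), (14, 15), (15, 14), (16, 9), (18, 18), (18, 18)]],
    [[],
     [],
     [],
     [],
     [],
     [],
     [],
     [],
     [(2, 14), (4, 16), (10, 22), (14, 2), (16, 4), (22, 10), (19, 19), (19, 19)],
     [],
     [(2, 19), (4, 16), (8, 20), (14, 15), (15, 14), (16, 4), (19, 2), (20, 8)],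
     [(2, 19), (15, 16), (16, 15), (19, 2), (20, 20), (22, 22), (20, 20), (22, 22)],
     [],
     [],
     [(4, 16), (8, 20), (10, 22), (16, 4), (20, 8), (22, 10), (19, 19), (19, 19)],
     [(2, 19), (4, 11), (11, 4), (19, 2), (10, 10), (20, 20), (10, 10), (20, 20)],
     [(2, 14), (8, 20), (10, 11), (11, 10), (14, 2), (20, 8), (22, 22), (22, 22)],
     [],
     [],
     [(4, 11), (8, 15), (11, 4), (15, 8), (10, 10), (14, 14), (10, 10), (14, 14)],
     [(2, 14), (4, 11), (10, 22), (11, 4), (14, 2), (15, 16), (16, 15), (22, 10)],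
     [],
     [(2, 14), (4, 16), (8, 11), (11, 8), (14, 2), (16, 4), (20, 20), (20, 20)]],
    [],
    [[],
     [],
     [],
     [],
     [],
     [],
     [],
     [],
     [],
     [],
     [(2, 14), (4, 16), (6, 18), (14, 2), (16, 4), (18, 6), (19, 19), (19, 19)],
     [],
     [],
     [(2, 19), (19, 2), (4, 4), (18, 18), (22, 22), (4, 4), (18, 18), (22, 22)],
     [(4, 16), (6, 18), (10, 22), (16, 4), (18, 6), (22, 10), (19, 19), (19, 19)],
     [],
     [(2, 14), (6, 18), (10, 22), (14, 2), (18, 6), (22, 10)],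
     [],
     [(2, 14), (4, 16), (10, 13), (13, 10), (14, 2), (16, 4), (22, 22), (22, 22)],
     [(6, 13), (13, 6), (4, 4), (10, 10), (14, 14), (4, 4), (10, 10), (14, 14)],
     [],
     [],
     [(2, 14), (4, 16), (6, 13), (13, 6), (14, 2), (16, 4), (18, 18), (18, 18)]],
    [[],
     [],
     [],
     [],
     [],
     [],
     [],
     [],
     [],
     [],
     [],
     [(5, 22), (13, 20), (20, 13), (22, 5), (15, 15), (19, 19), (15, 15), (19, 19)],
     [],
     [(4, 11), (5, 22), (11, 4), (15, 18), (18, 15), (22, 5), (19, 19), (19, 19)],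
     [(4, 5), (5, 4), (18, 19), (19, 18), (20, 20), (22, 22), (20, 20), (22, 22)],
     [(4, 5), (5, 4), (13, 20), (20, 13), (11, 11), (19, 19), (11, 11), (19, 19)],
     [],
     [],
     [(4, 5), (5, 4), (13, 14), (14, 13), (20, 20), (22, 22), (20, 20), (22, 22)],
     [(4, 5), (5, 4), (11, 14), (14, 11), (13, 13), (15, 15), (13, 13), (15, 15)],
     [(4, 5), (5, 22), (11, 4), (14, 15), (15, 14), (18, 11), (22, 22), (18, 18)],
     [],
     [(4, 11), (11, 4), (13, 14), (14, 13), (18, 18), (20, 20), (18, 18), (20, 20)]],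
    [[],
     [],
     [],
     [],
     [],
     [],
     [],
     [],
     [],
     [],
     [],
     [],
     [],
     [],
     [(4, 5), (5, 4), (6, 18), (8, 20), (16, 19), (18, 6), (19, 16), (20, 8)],
     [(2, 19), (4, 5), (5, 4), (19, 2), (6, 6), (20, 20), (6, 6), (20, 20)],
     [(2, 14), (5, 8), (6, 18), (8, 5), (14, 2), (18, 6), (20, 20), (20, 20)],
     [],
     [(2, 14), (4, 16), (5, 8), (8, 5), (14, 2), (16, 4), (20, 20), (20, 20)],
     [(4, 5), (5, 4), (8, 15), (15, 8), (6, 6), (14, 14), (6, 6), (14, 14)],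
     [(2, 5), (4, 16), (5, 2), (6, 18), (14, 15), (15, 14), (16, 4), (18, 6)]],
    [[],
     [],
     [],
     [],
     [],
     [],
     [],
     [],
     [],
     [],
     [],
     [],
     [],
     [(2, 9), (5, 22), (9, 2), (22, 5), (15, 15), (19, 19), (15, 15), (19, 19)],
     [],
     [(2, 9), (5, 6), (6, 5), (9, 2), (13, 20), (20, 13), (19, 19), (19, 19)],
     [(2, 5), (5, 2), (6, 6), (20, 20), (22, 22), (6, 6), (20, 20), (22, 22)],
     [],
     [],
     [(5, 6), (6, 5), (9, 9), (13, 13), (15, 15), (9, 9), (13, 13), (15, 15)],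
     [(2, 9), (5, 6), (6, 5), (9, 2), (15, 16), (16, 15), (22, 22), (22, 22)],
     [],
     [(2, 9), (6, 13), (9, 2), (13, 6), (16, 16), (20, 20), (16, 16), (20, 20)]],
    [],
    [[],
     [],
     [],
     [],
     [],
     [],
     [],
     [],
     [],
     [],
     [],
     [],
     [],
     [],
     [],
     [(2, 9), (4, 5), (5, 4), (9, 2), (11, 11), (19, 19), (11, 11), (19, 19)],
     [],
     [],
     [(2, 9), (4, 5), (5, 4), (9, 2), (8, 8), (22, 22), (8, 8), (22, 22)],
     [(4, 11), (5, 4), (8, 5), (9, 8), (11, 11), (15, 15), (9, 9), (15, 15)],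
     [],
     [],
     [(2, 9), (4, 11), (9, 2), (11, 4), (8, 8), (18, 18), (8, 8), (18, 18)]],
    [[],
     [],
     [],
     [],
     [],
     [],
     [],
     [],
     [],
     [],
     [],
     [],
     [],
     [],
     [],
     [],
     [(5, 8), (6, 18), (8, 20), (10, 22), (18, 6), (22, 5), (20, 20), (10, 10)],
     [],
     [(4, 16), (5, 4), (8, 20), (9, 10), (10, 22), (16, 9), (20, 8), (22, 5)],
     [(4, 5), (5, 4), (6, 9), (9, 6), (8, 8), (10, 10), (8, 8), (10, 10)],
     [(4, 16), (5, 4), (6, 18), (9, 10), (10, 22), (16, 9), (18, 6), (22, 5)],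
     [],
     [(4, 16), (6, 18), (8, 9), (9, 8), (16, 4), (18, 6), (20, 20), (20, 20)]],
    [[],
     [],
     [],
     [],
     [],
     [],
     [],
     [],
     [],
     [],
     [],
     [],
     [],
     [],
     [],
     [],
     [],
     [],
     [],
     [(4, 11), (5, 6), (6, 5), (9, 10), (10, 9), (11, 4), (13, 13), (13, 13)],
     [(2, 9), (4, 11), (5, 2), (6, 5), (9, 6), (11, 4), (10, 10), (10, 10)]],
    [[],
     [],
     [],
     [],
     [],
     [],
     [],
     [],
     [],
     [],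
     [],
     [],
     [],
     [],
     [],
     [],
     [],
     [],
     [(2, 14), (5, 8), (8, 20), (10, 22), (14, 2), (22, 5), (20, 20), (10, 10)],
     [],
     [(2, 14), (5, 2), (6, 18), (10, 22), (11, 10), (14, 11), (18, 6), (22, 5)],
     [],
     [(2, 14), (6, 18), (8, 11), (11, 8), (14, 2), (18, 6), (20, 20), (20, 20)]],
    [],
    [[],
     [],
     [],
     [],
     [],
     [],
     [],
     [],
     [],
     [],
     [],
     [],
     [],
     [],
     [],
     [],
     [],
     [],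
     [],
     [],
     [(2, 14), (4, 16), (5, 22), (9, 10), (10, 9), (14, 2), (16, 4), (22, 5)],
     [],
     [(2, 9), (4, 16), (8, 20), (9, 2), (13, 14), (14, 13), (16, 4), (20, 8)]],
    [],
    [[],
     [],
     [],
     [],
     [],
     [],
     [],
     [],
     [],
     [],
     [],
     [],
     [],
     [],
     [],
     [],
     [],
     [],
     [],
     [],
     [],
     [],
     [(2, 9), (4, 16), (6, 18), (9, 2), (11, 14), (14, 11), (16, 4), (18, 6)]],
    [],
    [],
    []]

theorem c24_zero : ∀ u v : Fin 24, u ≠ 0 → ¬ c24.Adj 0 u → ¬ c24.Adj 0 v → u < v →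
    ¬ c24.Adj u v →
    (((c24tab.getD u.val []).getD v.val []).length ≤ 8 ∧
    (∀ p ∈ (c24tab.getD u.val []).getD v.val [], p.1 = p.2 ∨ c24.Adj p.1 p.2) ∧
    ∀ z : Fin 24, (0 = z ∨ c24.Adj 0 z ∨ u = z ∨ c24.Adj u z ∨ v = z ∨ c24.Adj v z) ∨
      2 ≤ ((c24tab.getD u.val []).getD v.val []).countP
        (fun p => decide (p.1 = z ∨ p.2 = z))) := by
  decide +kernel

theorem c24_cov (t u v : Fin 24) (htu : t ≠ u) (htv : t ≠ v) (huv : u ≠ v)
    (h0 : ¬ c24.Adj t u) (h1 : ¬ c24.Adj t v) (h2 : ¬ c24.Adj u v) : Cov c24 {t, u, v} 8 := by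
  have hs : ∀ x : Fin 24, ¬ c24.Adj t x → ¬ c24.Adj 0 (x - t) := by
    intro x hx h3
    have h4 := c24_shift t _ _ h3
    rw [zero_add, sub_add_cancel] at h4
    exact hx h4
  have hs2 : ∀ x y : Fin 24, ¬ c24.Adj x y → ¬ c24.Adj (x - t) (y - t) := by
    intro x y hx h3
    have h4 := c24_shift t _ _ h3
    rw [sub_add_cancel, sub_add_cancel] at h4
    exact hx h4
  have key : ∀ u v : Fin 24, t ≠ u → ¬ c24.Adj t u → ¬ c24.Adj t v → u - t < v - t →
      ¬ c24.Adj u v → Cov c24 {t, u, v} 8 := by
    intro u v htu h0 h1 hlt h2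
    obtain ⟨h5, h6, h7⟩ := c24_zero (u - t) (v - t) (fun h' => htu (sub_eq_zero.1 h').symm)
      (hs u h0) (hs v h1) hlt (hs2 u v h2)
    have h8 : Cov c24 {0, u - t, v - t} 8 := by
      refine Cov.of_list _ h5 h6 fun z => ?_
      rcases h7 z with (h9 | h9 | h9 | h9 | h9 | h9) | h9
      · exact Or.inl ⟨0, by simp, Or.inl h9⟩
      · exact Or.inl ⟨0, by simp, Or.inr h9⟩
      · exact Or.inl ⟨u - t, by simp, Or.inl h9⟩
      · exact Or.inl ⟨u - t, by simp, Or.inr h9⟩
      · exact Or.inl ⟨v - t, by simp, Or.inl h9⟩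
      · exact Or.inl ⟨v - t, by simp, Or.inr h9⟩
      · exact Or.inr h9
    refine h8.map (Equiv.addRight t) (fun x y hxy => c24_shift t x y hxy) ?_
    intro i hi
    rw [Finset.mem_insert, Finset.mem_insert, Finset.mem_singleton] at hi
    rcases hi with rfl | rfl | rfl
    · simp
    · simp
    · simp
  rcases lt_trichotomy (u - t) (v - t) with hlt | heq | hlt
  · exact key u v htu h0 h1 hlt h2
  · exact absurd (sub_left_injective heq) huv
  · have h3 := key v u htv h1 h0 hlt (fun h' => h2 h'.symm)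
    rwa [Finset.pair_comm v u] at h3

end Pool.Agent.Lib.H93T
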