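import Pool.Agent.Lib.Helper15.Chrom.FracProduct

/-!
# H93T.Cert: double covers by cliques of a triangle-free graph

`Cov F I m`: the vertices of `F` outside the closed neighbourhood of `I` are covered twice by `m`
vertices and edges of `F`.  Then every fractional clique of a graph `B` all of whose edges are
non-edges of `F` joining vertices outside that closed neighbourhood has total weight at most `m / 2`.
-/

set_option autoImplicit false

namespace Pool.Agent.Lib.H93T

open Finset SimpleGraph Pool.Agent.Lib.Helper15.Chrom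

/-- `z` is in the closed neighbourhood of `I`. -/
def Cl {n : ℕ} (F : SimpleGraph (Fin n)) (I : Finset (Fin n)) (z : Fin n) : Prop :=
  ∃ i ∈ I, i = z ∨ F.Adj i z

/-- the vertices outside the closed neighbourhood of `I` are covered twice by `m` vertices and
edges of `F`. -/
def Cov {n : ℕ} (F : SimpleGraph (Fin n)) (I : Finset (Fin n)) (m : ℕ) : Prop :=
  ∃ c : Fin m → Fin n × Fin n, (∀ j, (c j).1 = (c j).2 ∨ F.Adj (c j).1 (c j).2) ∧
    ∀ z, Cl F I z ∨ 2 ≤ (univ.filter fun j => (c j).1 = z ∨ (c j).2 = z).card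

theorem Cov.bound {n : ℕ} {F : SimpleGraph (Fin n)} {I : Finset (Fin n)} {m : ℕ}
    (h : Cov F I m) (hm : 2 ≤ m) {B : SimpleGraph (Fin n)}
    (hB : ∀ x y, B.Adj x y → ¬ F.Adj x y ∧ ¬ Cl F I x ∧ ¬ Cl F I y) {g : Fin n → ℝ}
    (hg : FracClique B g) : 2 * ∑ v, g v ≤ m := by
  classical
  obtain ⟨c, hc, hz⟩ := h
  -- the independent sets
  set J : Fin m → Finset (Fin n) := fun j =>
    univ.filter fun z => Cl F I z ∨ (c j).1 = z ∨ (c j).2 = z with hJ
  have h1 : ∀ j, ∑ v ∈ J j, g v ≤ 1 := by
    intro j
    refine hg.2 _ ?_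
    intro x hx y hy hxy hadj
    obtain ⟨h2, h3, h4⟩ := hB x y hadj
    simp only [hJ, coe_filter, mem_univ, true_and, Set.mem_ofPred_eq] at hx hy
    rcases hx with hx | hx
    · exact h3 hx
    rcases hy with hy | hy
    · exact h4 hy
    rcases hc j with hcj | hcj
    · refine hxy ?_
      rcases hx with hx | hx <;> rcases hy with hy | hy <;> rw [← hx, ← hy]
      · exact hcj
      · exact hcj.symm
    · rcases hx with hx | hx <;> rcases hy with hy | hy
      · exact hxy (hx.symm.trans hy)
      · rw [hx, hy] at hcj; exact h2 hcj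
      · rw [hx, hy] at hcj; exact h2 hcj.symm
      · exact hxy (hx.symm.trans hy)
  have h5 : ∑ j : Fin m, ∑ v ∈ J j, g v = ∑ v, ((univ.filter fun j => v ∈ J j).card : ℝ) * g v := by
    have h6 : ∀ j : Fin m, ∑ v ∈ J j, g v = ∑ v, if v ∈ J j then g v else 0 := by
      intro j
      rw [← Finset.sum_filter]
      congr 1
      ext v
      simp
    rw [Finset.sum_congr rfl (fun j _ => h6 j), Finset.sum_comm]
    refine Finset.sum_congr rfl fun v _ => ?_
    rw [← Finset.sum_filter, Finset.sum_const, nsmul_eq_mul]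
  have h7 : ∑ v, 2 * g v ≤ ∑ v, ((univ.filter fun j => v ∈ J j).card : ℝ) * g v := by
    refine Finset.sum_le_sum fun v _ => mul_le_mul_of_nonneg_right ?_ (hg.1 v)
    have h8 : 2 ≤ (univ.filter fun j => v ∈ J j).card := by
      rcases hz v with hv | hv
      · have h9 : (univ.filter fun j => v ∈ J j) = (univ : Finset (Fin m)) := by
          ext j
          simp [hJ, hv]
        rw [h9, card_univ, Fintype.card_fin]
        exact hm
      · refine hv.trans (card_le_card ?_)
        intro j hj
        simp only [mem_filter, mem_univ, true_and, hJ] at hj ⊢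
        exact Or.inr hj
    exact_mod_cast h8
  rw [← Finset.mul_sum, ← h5] at h7
  refine h7.trans ?_
  refine (Finset.sum_le_sum fun j _ => h1 j).trans ?_
  rw [Finset.sum_const, card_univ, Fintype.card_fin, nsmul_eq_mul, mul_one]

/-- no homomorphism `G → Fᶜ` with image outside the closed neighbourhood of `I`, if
homomorphisms `G → B` yield fractional cliques of `B` of weight `x > m / 2`. -/
theorem Cov.no_hom {n : ℕ} {F : SimpleGraph (Fin n)} {I : Finset (Fin n)} {m : ℕ}
    (h : Cov F I m) (hm : 2 ≤ m) {W : Type*} {G : SimpleGraph W}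
    (hG : ∀ B : SimpleGraph (Fin n), Nonempty (G →g B) →
      ∃ g : Fin n → ℝ, FracClique B g ∧ (m : ℝ) < 2 * ∑ v, g v)
    (f : G →g Fᶜ) (hf : ∀ w, ¬ Cl F I (f w)) : False := by
  let B : SimpleGraph (Fin n) :=
    { Adj := fun x y => x ≠ y ∧ ¬ F.Adj x y ∧ ¬ Cl F I x ∧ ¬ Cl F I y
      symm := ⟨fun x y hxy => ⟨hxy.1.symm, fun h' => hxy.2.1 h'.symm, hxy.2.2.2, hxy.2.2.1⟩⟩
      loopless := ⟨fun x hx => hx.1 rfl⟩ }
  obtain ⟨g, hg, hgm⟩ := hG B ⟨⟨f, fun {u v} huv =>
    ⟨(f.map_rel huv).ne, ((compl_adj _ _ _).1 (f.map_rel huv)).2, hf u, hf v⟩⟩⟩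
  have := h.bound hm (B := B) (fun x y hxy => ⟨hxy.2.1, hxy.2.2.1, hxy.2.2.2⟩) hg
  linarith

/-- transport of a double cover along an automorphism. -/
theorem Cov.map {n : ℕ} {F : SimpleGraph (Fin n)} {I I' : Finset (Fin n)} {m : ℕ}
    (h : Cov F I m) (e : Equiv.Perm (Fin n)) (he : ∀ x y, F.Adj x y → F.Adj (e x) (e y))
    (hI : ∀ i ∈ I, e i ∈ I') : Cov F I' m := by
  classical
  obtain ⟨c, hc, hz⟩ := h
  refine ⟨fun j => (e (c j).1, e (c j).2), fun j => ?_, fun z => ?_⟩
  · rcases hc j with hj | hj
    · exact Or.inl (congrArg e hj)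
    · exact Or.inr (he _ _ hj)
  · rcases hz (e.symm z) with hz' | hz'
    · obtain ⟨i, hi, hiz⟩ := hz'
      refine Or.inl ⟨e i, hI i hi, ?_⟩
      rcases hiz with hiz | hiz
      · left
        rw [hiz, Equiv.apply_symm_apply]
      · right
        have := he _ _ hiz
        rwa [Equiv.apply_symm_apply] at this
    · refine Or.inr (hz'.trans (card_le_card ?_))
      intro j hj
      simp only [mem_filter, mem_univ, true_and] at hj ⊢
      rcases hj with hj | hj
      · left
        rw [hj, Equiv.apply_symm_apply]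
      · right
        rw [hj, Equiv.apply_symm_apply]

/-- a list of pairs as a double cover (padded by `(0, 0)`). -/
theorem Cov.of_list {n : ℕ} [NeZero n] {F : SimpleGraph (Fin n)} [DecidableRel F.Adj]
    {I : Finset (Fin n)} {m : ℕ} (L : List (Fin n × Fin n)) (hL : L.length ≤ m)
    (h1 : ∀ p ∈ L, p.1 = p.2 ∨ F.Adj p.1 p.2)
    (h2 : ∀ z, (∃ i ∈ I, i = z ∨ F.Adj i z) ∨
      2 ≤ L.countP (fun p => decide (p.1 = z ∨ p.2 = z))) : Cov F I m := by
  classical
  refine ⟨fun j => if h : j.val < L.length then L[j.val] else (0, 0), fun j => ?_, fun z => ?_⟩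
  · by_cases hj : j.val < L.length
    · simp only [hj, dif_pos]
      exact h1 _ (List.getElem_mem _)
    · left
      show (if h : j.val < L.length then L[j.val] else (0, 0)).1 =
        (if h : j.val < L.length then L[j.val] else (0, 0)).2
      rw [dif_neg hj]
  · rcases h2 z with h | h
    · exact Or.inl h
    · refine Or.inr (h.trans ?_)
      have h3 : L.countP (fun p => decide (p.1 = z ∨ p.2 = z)) =
          (univ.filter fun j : Fin L.length => (L[j.val]).1 = z ∨ (L[j.val]).2 = z).card := by
        have h5 : L = (List.finRange L.length).map (fun i => L[i.val]) := by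
          rw [← List.ofFn_eq_map]
          exact (List.ofFn_getElem (xs := L)).symm
        conv_lhs => rw [h5]
        rw [List.countP_map, Finset.card_def, Finset.filter_val]
        rw [← Multiset.countP_eq_card_filter]
        have h4 : (univ : Finset (Fin L.length)).val = ((List.finRange L.length : List (Fin L.length)) : Multiset _) := rfl
        rw [h4, Multiset.coe_countP]
        rfl
      rw [h3]
      refine card_le_card_of_injOn (fun j => ⟨j.val, lt_of_lt_of_le j.2 hL⟩) ?_ ?_
      · intro j hj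
        simp only [coe_filter, mem_univ, true_and, Set.mem_ofPred_eq] at hj ⊢
        simp only [j.2, dif_pos]
        exact hj
      · intro j _ j' _ hjj
        simp only [Fin.mk.injEq] at hjj
        exact Fin.ext hjj

end Pool.Agent.Lib.H93T
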