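import Pool.Agent.Lib.H93T.C20
import Pool.Agent.Lib.H93T.C21
import Pool.Agent.Lib.H93T.C22
import Pool.Agent.Lib.H93T.C24

/-!
# H93T.Final: no homomorphisms from `K_2 ∨ M` and `K_3 ∨ M` to the complements of four circulants

`M` stands for any graph such that a homomorphism `M → B` gives a fractional clique of `B` of weight
at least `b` (or larger than `b - 1`).
-/

set_option autoImplicit false

namespace Pool.Agent.Lib.H93T

open Finset SimpleGraph Pool.Agent.Lib.Helper15.Chrom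

theorem Cov.no_pair {n m : ℕ} (hm : 2 ≤ m) {F : SimpleGraph (Fin n)}
    (hc : ∀ u v, u ≠ v → ¬ F.Adj u v → Cov F {u, v} m) {W : Type*} {G : SimpleGraph W}
    (hG : ∀ B : SimpleGraph (Fin n), Nonempty (G →g B) →
      ∃ g : Fin n → ℝ, FracClique B g ∧ (m : ℝ) < 2 * ∑ v, g v)
    (u v : Fin n) (huv : Fᶜ.Adj u v) (f : G →g Fᶜ)
    (hf : ∀ w, Fᶜ.Adj u (f w) ∧ Fᶜ.Adj v (f w)) : False := by
  rw [compl_adj] at huv
  refine (hc u v huv.1 huv.2).no_hom hm hG f fun w => ?_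
  obtain ⟨h1, h2⟩ := hf w
  rw [compl_adj] at h1 h2
  rintro ⟨i, hi, h3⟩
  rw [Finset.mem_insert, Finset.mem_singleton] at hi
  rcases hi with rfl | rfl
  · rcases h3 with h3 | h3
    · exact h1.1 h3
    · exact h1.2 h3
  · rcases h3 with h3 | h3
    · exact h2.1 h3
    · exact h2.2 h3

theorem Cov.no_triple {n m : ℕ} (hm : 2 ≤ m) {F : SimpleGraph (Fin n)}
    (hc : ∀ t u v, t ≠ u → t ≠ v → u ≠ v → ¬ F.Adj t u → ¬ F.Adj t v → ¬ F.Adj u v →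
      Cov F {t, u, v} m) {W : Type*} {G : SimpleGraph W}
    (hG : ∀ B : SimpleGraph (Fin n), Nonempty (G →g B) →
      ∃ g : Fin n → ℝ, FracClique B g ∧ (m : ℝ) < 2 * ∑ v, g v)
    (t u v : Fin n) (htu : Fᶜ.Adj t u) (htv : Fᶜ.Adj t v) (huv : Fᶜ.Adj u v) (f : G →g Fᶜ)
    (hf : ∀ w, Fᶜ.Adj t (f w) ∧ Fᶜ.Adj u (f w) ∧ Fᶜ.Adj v (f w)) : False := by
  rw [compl_adj] at htu htv huv
  refine (hc t u v htu.1 htv.1 huv.1 htu.2 htv.2 huv.2).no_hom hm hG f fun w => ?_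
  obtain ⟨h1, h2, h3⟩ := hf w
  rw [compl_adj] at h1 h2 h3
  rintro ⟨i, hi, h4⟩
  rw [Finset.mem_insert, Finset.mem_insert, Finset.mem_singleton] at hi
  rcases hi with rfl | rfl | rfl
  · rcases h4 with h4 | h4
    · exact h1.1 h4
    · exact h1.2 h4
  · rcases h4 with h4 | h4
    · exact h2.1 h4
    · exact h2.2 h4
  · rcases h4 with h4 | h4
    · exact h3.1 h4
    · exact h3.2 h4

/-- `(3, 7; 20)`, type `(2, +)`: no `K_2 ∨ M_5^+` in the complement of `c20`. -/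
theorem c20_no {W : Type*} {G : SimpleGraph W}
    (hG : ∀ B : SimpleGraph (Fin 20), Nonempty (G →g B) →
      ∃ g : Fin 20 → ℝ, FracClique B g ∧ (5 : ℝ) ≤ ∑ v, g v)
    (u v : Fin 20) (huv : c20ᶜ.Adj u v) (f : G →g c20ᶜ)
    (hf : ∀ w, c20ᶜ.Adj u (f w) ∧ c20ᶜ.Adj v (f w)) : False := by
  refine Cov.no_pair (m := 9) (by norm_num) c20_cov (fun B hB => ?_) u v huv f hf
  obtain ⟨g, h1, h2⟩ := hG B hB
  exact ⟨g, h1, by push_cast; linarith⟩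

/-- `(3, 7; 21)`, type `(3, +)`: no `K_3 ∨ M_4^+` in the complement of `c21`. -/
theorem c21_no {W : Type*} {G : SimpleGraph W}
    (hG : ∀ B : SimpleGraph (Fin 21), Nonempty (G →g B) →
      ∃ g : Fin 21 → ℝ, FracClique B g ∧ (4 : ℝ) ≤ ∑ v, g v)
    (t u v : Fin 21) (htu : c21ᶜ.Adj t u) (htv : c21ᶜ.Adj t v) (huv : c21ᶜ.Adj u v)
    (f : G →g c21ᶜ)
    (hf : ∀ w, c21ᶜ.Adj t (f w) ∧ c21ᶜ.Adj u (f w) ∧ c21ᶜ.Adj v (f w)) : False := by
  refine Cov.no_triple (m := 7) (by norm_num) c21_cov (fun B hB => ?_) t u v htu htv huv f hf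
  obtain ⟨g, h1, h2⟩ := hG B hB
  exact ⟨g, h1, by push_cast; linarith⟩

/-- `(3, 8; 22)`, type `(2, +)`: no `K_2 ∨ M_6^+` in the complement of `c22`. -/
theorem c22_no {W : Type*} {G : SimpleGraph W}
    (hG : ∀ B : SimpleGraph (Fin 22), Nonempty (G →g B) →
      ∃ g : Fin 22 → ℝ, FracClique B g ∧ (6 : ℝ) ≤ ∑ v, g v)
    (u v : Fin 22) (huv : c22ᶜ.Adj u v) (f : G →g c22ᶜ)
    (hf : ∀ w, c22ᶜ.Adj u (f w) ∧ c22ᶜ.Adj v (f w)) : False := by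
  refine Cov.no_pair (m := 11) (by norm_num) c22_cov (fun B hB => ?_) u v huv f hf
  obtain ⟨g, h1, h2⟩ := hG B hB
  exact ⟨g, h1, by push_cast; linarith⟩

/-- `(3, 8; 24)`, type `(3, -)`: no `K_3 ∨ M_5^-` in the complement of `c24`. -/
theorem c24_no {W : Type*} {G : SimpleGraph W}
    (hG : ∀ B : SimpleGraph (Fin 24), Nonempty (G →g B) →
      ∃ g : Fin 24 → ℝ, FracClique B g ∧ (4 : ℝ) < ∑ v, g v)
    (t u v : Fin 24) (htu : c24ᶜ.Adj t u) (htv : c24ᶜ.Adj t v) (huv : c24ᶜ.Adj u v)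
    (f : G →g c24ᶜ)
    (hf : ∀ w, c24ᶜ.Adj t (f w) ∧ c24ᶜ.Adj u (f w) ∧ c24ᶜ.Adj v (f w)) : False := by
  refine Cov.no_triple (m := 8) (by norm_num) c24_cov (fun B hB => ?_) t u v htu htv huv f hf
  obtain ⟨g, h1, h2⟩ := hG B hB
  exact ⟨g, h1, by push_cast; linarith⟩

end Pool.Agent.Lib.H93T
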